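import Pool.Agent.helper38.OV.Spec

set_option autoImplicit false

namespace Pool.Agent.OV

open Finset Real Pool.Agent.AT Pool.Agent.helper85.FC Pool.Agent.OM

theorem SM3_geom (n : ℕ) : ∑ j ∈ range n, ((1 : ℝ) / 4) ^ j = 4 / 3 * (1 - (1 / 4) ^ n) := by
  induction n with
  | zero => simp
  | succ n ih => rw [sum_range_succ, ih, pow_succ]; ring

/-- fast decrease of the ratios -/
theorem SM3_dec (L : ℕ) (A B : ℕ → ℕ) (q : ℝ) (hq : 0 ≤ q) (hB : ∀ m ∈ Ico 1 L, (0 : ℝ) < B m)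
    (hdec : ∀ m, 1 ≤ m → m + 1 < L → (A (m + 1) : ℝ) * B m ≤ q * (A m * B (m + 1))) (m₁ : ℕ) (h1 : 1 ≤ m₁) :
    ∀ k, m₁ + k < L → (A (m₁ + k) : ℝ) * B m₁ ≤ q ^ k * (A m₁ * B (m₁ + k)) := by
  intro k
  induction k with
  | zero => intro _; simp
  | succ k ih =>
    intro hk
    have ih' := ih (by omega)
    have hd := hdec (m₁ + k) (by omega) (by omega)
    have hBk := hB (m₁ + k) (mem_Ico.2 ⟨by omega, by omega⟩)
    have hB1 := hB m₁ (mem_Ico.2 ⟨by omega, by omega⟩)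
    have hBk1 := hB (m₁ + k + 1) (mem_Ico.2 ⟨by omega, by omega⟩)
    have e1 : (A (m₁ + k + 1) : ℝ) * B (m₁ + k) * B m₁ ≤ q * (A (m₁ + k) * B (m₁ + k + 1)) * B m₁ :=
      mul_le_mul_of_nonneg_right hd hB1.le
    have e2 : q * B (m₁ + k + 1) * ((A (m₁ + k) : ℝ) * B m₁) ≤ q * B (m₁ + k + 1) * (q ^ k * (A m₁ * B (m₁ + k))) :=
      mul_le_mul_of_nonneg_left ih' (by positivity)
    have e3 : (B (m₁ + k) : ℝ) * ((A (m₁ + k + 1) : ℝ) * B m₁) ≤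
        B (m₁ + k) * (q ^ (k + 1) * (A m₁ * B (m₁ + k + 1))) := by
      calc (B (m₁ + k) : ℝ) * ((A (m₁ + k + 1) : ℝ) * B m₁) = (A (m₁ + k + 1) : ℝ) * B (m₁ + k) * B m₁ := by ring
        _ ≤ q * (A (m₁ + k) * B (m₁ + k + 1)) * B m₁ := e1
        _ = q * B (m₁ + k + 1) * ((A (m₁ + k) : ℝ) * B m₁) := by ring
        _ ≤ q * B (m₁ + k + 1) * (q ^ k * (A m₁ * B (m₁ + k))) := e2
        _ = B (m₁ + k) * (q ^ (k + 1) * (A m₁ * B (m₁ + k + 1))) := by rw [pow_succ]; ring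
    exact le_of_mul_le_mul_left e3 hBk

/-- the bound for one resonant `m` -/
theorem SM3_one (s κ a₁ b₁ a₂ b₂ M T Y q P : ℝ) (hs : 0 < s) (hκ : 0 < κ) (ha₁ : 0 < a₁) (hb₁ : 0 < b₁)
    (hb₂ : 0 < b₂) (hM : 0 ≤ M) (hT : 0 ≤ T) (hY : 0 < Y) (hq : q = κ ^ 2 / (64 * s)) (hP : 0 ≤ P)
    (h1 : κ ^ 2 * (M * b₂ * T) ≤ 2 * (a₂ * Y)) (h2 : a₂ * b₁ ≤ q * P * (a₁ * b₂)) :
    2 * π * T * (4 * M * (s / Y) * b₁ / a₁) ≤ π / 4 * P := by
  have hpi : 0 < π := Real.pi_pos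
  have hq0 : 0 < q := by rw [hq]; positivity
  have e1 : 2 * π * T * (4 * M * (s / Y) * b₁ / a₁) = (8 * π * s * b₁ / (Y * a₁ * (κ ^ 2 * b₂))) * (κ ^ 2 * (M * b₂ * T)) := by
    field_simp
    try ring
  have e2 : (8 * π * s * b₁ / (Y * a₁ * (κ ^ 2 * b₂))) * (2 * (a₂ * Y)) = (16 * π * s / (a₁ * (κ ^ 2 * b₂))) * (a₂ * b₁) := by
    field_simp
    try ring
  have e3 : (16 * π * s / (a₁ * (κ ^ 2 * b₂))) * (q * P * (a₁ * b₂)) = π / 4 * P := by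
    rw [hq]
    field_simp
    try ring
  calc 2 * π * T * (4 * M * (s / Y) * b₁ / a₁) = (8 * π * s * b₁ / (Y * a₁ * (κ ^ 2 * b₂))) * (κ ^ 2 * (M * b₂ * T)) := e1
    _ ≤ (8 * π * s * b₁ / (Y * a₁ * (κ ^ 2 * b₂))) * (2 * (a₂ * Y)) := mul_le_mul_of_nonneg_left h1 (by positivity)
    _ = (16 * π * s / (a₁ * (κ ^ 2 * b₂))) * (a₂ * b₁) := e2
    _ ≤ (16 * π * s / (a₁ * (κ ^ 2 * b₂))) * (q * P * (a₁ * b₂)) := mul_le_mul_of_nonneg_left h2 (by positivity)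
    _ = π / 4 * P := e3

theorem SM3 (hGEO : OM.GEO_stmt) (hAR3 : AR3_stmt) : SM3_stmt := by
  classical
  intro L Y M1 κ A B hSq hY D T hD hT α β w hw hwN
  obtain ⟨hL, hκ, hκ1, hM1, hA, hdec, hdet⟩ := hSq
  have hL0 : (0 : ℝ) < L := by exact_mod_cast hL
  have hL1 : (1 : ℝ) ≤ L := by exact_mod_cast hL
  have hY0 : (0 : ℝ) < Y := by exact_mod_cast hY
  have hs : 0 < √(L : ℝ) := Real.sqrt_pos.2 hL0
  have hs1 : 1 ≤ √(L : ℝ) := Real.one_le_sqrt.2 hL1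
  have hss : √(L : ℝ) * √(L : ℝ) = L := Real.mul_self_sqrt hL0.le
  have hpi : 0 < π := Real.pi_pos
  have hB : ∀ m ∈ Ico 1 L, (0 : ℝ) < B m := by
    intro m hm
    obtain ⟨h1, h2⟩ := hA m hm
    have h3 : (1 : ℝ) ≤ A m := by exact_mod_cast h1
    have h4 : (0 : ℝ) < κ ^ 2 * B m := lt_of_lt_of_le (by positivity) h2
    exact (mul_pos_iff_of_pos_left (by positivity)).1 h4
  set q : ℝ := κ ^ 2 / (64 * √(L : ℝ)) with hq
  have hq0 : 0 < q := by rw [hq]; positivity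
  have hq1 : q ≤ 1 / 64 := by
    rw [hq, div_le_div_iff₀ (by positivity) (by norm_num)]
    have : κ ^ 2 ≤ 1 := pow_le_one₀ hκ.le hκ1
    nlinarith
  have hdec' : ∀ m, 1 ≤ m → m + 1 < L → (A (m + 1) : ℝ) * B m ≤ q * (A m * B (m + 1)) := by
    intro m h1 h2
    have h3 := hdec m h1 h2
    rw [hq, div_mul_eq_mul_div, le_div_iff₀ (by positivity)]
    calc (A (m + 1) : ℝ) * B m * (64 * √(L : ℝ)) = 64 * √(L : ℝ) * (A (m + 1) * B m) := by ring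
      _ ≤ κ ^ 2 * (A m * B (m + 1)) := h3
  -- resonance
  let Res : ℕ → Prop := fun m => Near ((A m : ℝ) * α + (B m : ℝ) * β) (√(L : ℝ) / Y * B m)
  have hnon : ∀ m ∈ Ico 1 L, ¬ Res m → w m * FD (D m) ((A m : ℝ) * α + (B m : ℝ) * β) ≤ 4 / L := by
    intro m hm hR
    obtain ⟨hD1, hD2⟩ := hD m hm
    obtain ⟨h0, -, h2⟩ := hGEO (D m) ((A m : ℝ) * α + (B m : ℝ) * β)
    have hBm := hB m hm
    have h3 := h2 (√(L : ℝ) / Y * B m) (by positivity) hD1 hR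
    have h4 : (L : ℝ) ≤ (2 * (D m : ℝ) * (√(L : ℝ) / Y * B m)) ^ 2 := by
      have h5 : (Y : ℝ) ≤ 2 * (B m * D m) := by exact_mod_cast hD2
      have h6 : √(L : ℝ) ≤ 2 * (D m : ℝ) * (√(L : ℝ) / Y * B m) := by
        have e : 2 * (D m : ℝ) * (√(L : ℝ) / Y * B m) = √(L : ℝ) * (2 * (B m * D m) / Y) := by
          field_simp
        rw [e]
        have h7 : 1 ≤ 2 * ((B m : ℝ) * D m) / Y := by rw [one_le_div hY0]; exact h5
        nlinarith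
      calc (L : ℝ) = √(L : ℝ) * √(L : ℝ) := hss.symm
        _ ≤ (2 * (D m : ℝ) * (√(L : ℝ) / Y * B m)) * (2 * (D m : ℝ) * (√(L : ℝ) / Y * B m)) := mul_self_le_mul_self hs.le h6
        _ = (2 * (D m : ℝ) * (√(L : ℝ) / Y * B m)) ^ 2 := by ring
    have h5 : FD (D m) ((A m : ℝ) * α + (B m : ℝ) * β) ≤ 1 / (L : ℝ) := h3.trans (one_div_le_one_div_of_le hL0 h4)
    calc w m * FD (D m) ((A m : ℝ) * α + (B m : ℝ) * β) ≤ 4 * (1 / (L : ℝ)) := mul_le_mul (hw m hm).2 h5 h0 (by norm_num)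
      _ = 4 / L := by ring
  have hres : ∀ m ∈ Ico 1 L, w m * FD (D m) ((A m : ℝ) * α + (B m : ℝ) * β) ≤ w m := by
    intro m hm
    obtain ⟨h0, h1, -⟩ := hGEO (D m) ((A m : ℝ) * α + (B m : ℝ) * β)
    have := (hw m hm).1
    nlinarith
  have hsplit : ∑ m ∈ Ico 1 L, w m * FD (D m) ((A m : ℝ) * α + (B m : ℝ) * β) ≤
      4 + ∑ m ∈ Ico 1 L with Res m, w m := by
    rw [← sum_filter_add_sum_filter_not (Ico 1 L) Res, add_comm]
    refine add_le_add ?_ (sum_le_sum fun m hm => hres m (mem_filter.1 hm).1)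
    calc ∑ m ∈ Ico 1 L with ¬ Res m, w m * FD (D m) ((A m : ℝ) * α + (B m : ℝ) * β)
        ≤ ∑ m ∈ Ico 1 L with ¬ Res m, 4 / (L : ℝ) := sum_le_sum fun m hm => hnon m (mem_filter.1 hm).1 (mem_filter.1 hm).2
      _ = (#{m ∈ Ico 1 L | ¬ Res m} : ℝ) * (4 / L) := by rw [sum_const, nsmul_eq_mul]
      _ ≤ L * (4 / L) := by
        refine mul_le_mul_of_nonneg_right ?_ (by positivity)
        have h1 : #{m ∈ Ico 1 L | ¬ Res m} ≤ #(Ico 1 L) := card_filter_le _ _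
        rw [Nat.card_Ico] at h1
        exact_mod_cast h1.trans (Nat.sub_le L 1)
      _ = 4 := by field_simp
  have hsum : ∑ m ∈ Ico 1 L with Res m, w m ≤ 5 := by
    rcases (filter Res (Ico 1 L)).eq_empty_or_nonempty with he | hne
    · rw [he, sum_empty]; norm_num
    obtain ⟨m₁, hm₁, hmin⟩ : ∃ m₁ ∈ filter Res (Ico 1 L), ∀ m ∈ filter Res (Ico 1 L), m₁ ≤ m :=
      ⟨(filter Res (Ico 1 L)).min' hne, min'_mem _ _, fun m hm => min'_le _ _ hm⟩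
    have hm₁' := mem_filter.1 hm₁
    have hm₁I := mem_Ico.1 hm₁'.1
    have hone : ∀ m ∈ (filter Res (Ico 1 L)).erase m₁, w m ≤ 2 / 3 * (1 / 4) ^ (m - (m₁ + 1)) := by
      intro m hm
      rw [mem_erase] at hm
      obtain ⟨hne1, hm2⟩ := hm
      have hm2' := mem_filter.1 hm2
      have hm2I := mem_Ico.1 hm2'.1
      have hlt : m₁ < m := lt_of_le_of_ne (hmin m hm2) (Ne.symm hne1)
      obtain ⟨k, rfl⟩ : ∃ k, m = m₁ + (k + 1) := ⟨m - m₁ - 1, by omega⟩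
      have hd := SM3_dec L A B q hq0.le hB hdec' m₁ hm₁I.1 (k + 1) hm2I.2
      have hA1 : (1 : ℝ) ≤ A m₁ := by exact_mod_cast (hA m₁ hm₁'.1).1
      have hB1 := hB m₁ hm₁'.1
      have hB2 := hB _ hm2'.1
      have hqk : q ^ k ≤ (1 / 64) ^ k := pow_le_pow_left₀ hq0.le hq1 k
      have hd2 : (A (m₁ + (k + 1)) : ℝ) * B m₁ ≤ q * (1 / 64) ^ k * (A m₁ * B (m₁ + (k + 1))) := by
        refine hd.trans ?_
        rw [pow_succ']
        refine mul_le_mul_of_nonneg_right (mul_le_mul_of_nonneg_left hqk hq0.le) (by positivity)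
      have hdetR : 2 * (A (m₁ + (k + 1)) * B m₁) ≤ A m₁ * B (m₁ + (k + 1)) := by
        have h1 : q * (1 / 64 : ℝ) ^ k ≤ 1 / 2 := by
          have h2 : (1 / 64 : ℝ) ^ k ≤ 1 := pow_le_one₀ (by norm_num) (by norm_num)
          nlinarith
        have h3 : q * (1 / 64 : ℝ) ^ k * (A m₁ * B (m₁ + (k + 1))) ≤ 1 / 2 * (A m₁ * B (m₁ + (k + 1))) :=
          mul_le_mul_of_nonneg_right h1 (by positivity)
        have h4 : 2 * ((A (m₁ + (k + 1)) : ℝ) * B m₁) ≤ A m₁ * B (m₁ + (k + 1)) := by linarith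
        exact_mod_cast h4
      have hN := hAR3 (A m₁) (B m₁) (A (m₁ + (k + 1))) (B (m₁ + (k + 1))) M1 (hA m₁ hm₁'.1).1
        (by exact_mod_cast hB2) hdetR (hdet m₁ hm₁'.1 _ hm2'.1 hlt) α β (√(L : ℝ) / Y) (by positivity) hm₁'.2 hm2'.2
      have hwm := hwN _ hm2'.1 _ (by positivity) hN
      have hb := SM3_one (√(L : ℝ)) κ (A m₁) (B m₁) (A (m₁ + (k + 1))) (B (m₁ + (k + 1))) M1 (T (m₁ + (k + 1))) Y q
        ((1 / 64) ^ k) hs hκ (by linarith) hB1 hB2 (by positivity) (by positivity) hY0 hq (by positivity)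
        (hT _ hm2'.1) hd2
      have hb0 : 0 ≤ 2 * π * (T (m₁ + (k + 1)) : ℝ) * (4 * M1 * (√(L : ℝ) / Y) * B m₁ / A m₁) := by positivity
      have hk : m₁ + (k + 1) - (m₁ + 1) = k := by omega
      rw [hk]
      calc w (m₁ + (k + 1)) ≤ (2 * π * (T (m₁ + (k + 1)) : ℝ) * (4 * M1 * (√(L : ℝ) / Y) * B m₁ / A m₁)) ^ 2 := hwm
        _ ≤ (π / 4 * (1 / 64) ^ k) ^ 2 := pow_le_pow_left₀ hb0 hb 2
        _ = (π / 4) ^ 2 * (1 / 4096) ^ k := by
          rw [mul_pow, ← pow_mul, mul_comm k 2, pow_mul]; norm_num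
        _ ≤ 2 / 3 * (1 / 4) ^ k := by
          refine mul_le_mul ?_ (pow_le_pow_left₀ (by norm_num) (by norm_num) k) (by positivity) (by norm_num)
          have := Real.pi_lt_d2
          nlinarith
    have hle : ∑ m ∈ (filter Res (Ico 1 L)).erase m₁, w m ≤ 1 := by
      calc ∑ m ∈ (filter Res (Ico 1 L)).erase m₁, w m
          ≤ ∑ m ∈ (filter Res (Ico 1 L)).erase m₁, 2 / 3 * ((1 : ℝ) / 4) ^ (m - (m₁ + 1)) := sum_le_sum hone
        _ ≤ ∑ m ∈ Ico (m₁ + 1) L, 2 / 3 * ((1 : ℝ) / 4) ^ (m - (m₁ + 1)) := by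
          refine sum_le_sum_of_subset_of_nonneg ?_ (fun _ _ _ => by positivity)
          intro m hm
          rw [mem_erase] at hm
          have h1 := hmin m hm.2
          have h2 := mem_Ico.1 (mem_filter.1 hm.2).1
          exact mem_Ico.2 ⟨lt_of_le_of_ne h1 (Ne.symm hm.1), h2.2⟩
        _ = ∑ j ∈ range (L - (m₁ + 1)), 2 / 3 * ((1 : ℝ) / 4) ^ j := by
          rw [sum_Ico_eq_sum_range]
          refine sum_congr rfl fun j _ => ?_
          rw [Nat.add_sub_cancel_left]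
        _ = 2 / 3 * (4 / 3 * (1 - (1 / 4) ^ (L - (m₁ + 1)))) := by rw [← mul_sum, SM3_geom]
        _ ≤ 1 := by
          have : (0 : ℝ) ≤ (1 / 4) ^ (L - (m₁ + 1)) := by positivity
          linarith
    rw [← add_sum_erase _ _ hm₁]
    have := (hw m₁ hm₁'.1).2
    linarith
  linarith

end Pool.Agent.OV
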